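import Pool.Agent.H240.GU.Def
set_option autoImplicit false
open Set Filter Topology MeasureTheory
open scoped ContDiff ComplexConjugate Real

noncomputable section
namespace Pool.Agent.H596.GU

theorem stSer : Pool.Agent.H240.GU.StSer := by
  intro η θ hsm hθ hK hsum
  choose K hK using hK
  obtain ⟨v, hv⟩ : ∃ v : ℕ → ℕ → ℝ, v = fun j n => if j ≤ n then θ n else K n j := ⟨_, rfl⟩
  have hvs : ∀ j : ℕ, Summable (v j) := by
    intro j
    have h1 : v j =ᶠ[cofinite] θ := by
      rw [Nat.cofinite_eq_atTop]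
      filter_upwards [eventually_ge_atTop j] with n hn
      rw [hv]
      simp only
      rw [if_pos hn]
    exact hsum.congr_cofinite h1.symm
  have hbd : ∀ (k i : ℕ) (x : ℝ), ‖iteratedFDeriv ℝ k (η i) x‖ ≤ v k i := by
    intro k i x
    rw [norm_iteratedFDeriv_eq_norm_iteratedDeriv, Real.norm_eq_abs, hv]
    simp only
    split_ifs with h
    · exact hθ i k h x
    · exact hK i k x
  refine ⟨contDiff_tsum hsm (fun k _ => hvs k) (fun k i x _ => hbd k i x), fun j t => ?_⟩
  have h1 := iteratedFDeriv_tsum (N := ⊤) hsm (fun k _ => hvs k) (fun k i x _ => hbd k i x)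
    (k := j) le_top
  have h2 : Summable (fun n => iteratedFDeriv ℝ j (η n) t) :=
    Summable.of_norm_bounded (hvs j) (fun n => hbd j n t)
  have h3 : HasSum (fun n => iteratedFDeriv ℝ j (η n) t)
      (iteratedFDeriv ℝ j (fun y => ∑' n, η n y) t) := by
    rw [h1]
    exact h2.hasSum
  have h4 := h3.mapL (ContinuousMultilinearMap.apply ℝ (fun _ : Fin j => ℝ) ℝ (fun _ => (1 : ℝ)))
  simpa only [iteratedDeriv, ContinuousMultilinearMap.apply_apply] using h4

end Pool.Agent.H596.GU
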